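import Pool.Agent.Lib.BE.SpecR

/-!
PROJECT BE, part R, module ChR: chains with ratio exactly g, almost primes at all places.
-/

set_option autoImplicit false

namespace Pool.Agent.Lib.BE

open Finset
open Pool.Agent.Lib.MP_9f2731_nt.GP Pool.Agent.Lib.MP_9f2731_nt.GP.Sv
  Pool.Agent.Lib.MP_9f2731_nt.QL Pool.Agent.Lib.MP_9f2731_nt.QL.Sw
  Pool.Agent.Lib.MP_9f2731_nt.CG Pool.Agent.Lib.MP_9f2731_nt.CG.Ma
  Pool.Agent.Lib.MP_9f2731_nt.CG.Mf

/-- the weight of a word -/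
private def ChR_wt {k r : ℕ} (w : Fin r → Fin k) : ℕ := ∑ t, (w t : ℕ)

private theorem ChR_wt_le {k r : ℕ} (w : Fin r → Fin k) : ChR_wt w ≤ (k - 1) * r := by
  unfold ChR_wt
  calc ∑ t, (w t : ℕ) ≤ ∑ _t : Fin r, (k - 1) :=
        Finset.sum_le_sum fun t _ => by
          have := (w t).isLt
          omega
    _ = (k - 1) * r := by rw [Finset.sum_const, Finset.card_univ, Fintype.card_fin, smul_eq_mul,
        Nat.mul_comm]

/-- every weight occurs -/
private theorem ChR_word (k : ℕ) (hk : 1 ≤ k) : ∀ r j : ℕ, j ≤ (k - 1) * r →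
    ∃ w : Fin r → Fin k, ChR_wt w = j := by
  intro r
  induction r with
  | zero =>
    intro j hj
    refine ⟨fun t => t.elim0, ?_⟩
    unfold ChR_wt
    rw [Finset.univ_eq_empty, Finset.sum_empty]
    omega
  | succ r ih =>
    intro j hj
    rw [Nat.mul_succ] at hj
    obtain ⟨w, hw⟩ := ih (j - min (k - 1) j) (by omega)
    refine ⟨Fin.cons ⟨min (k - 1) j, by omega⟩ w, ?_⟩
    unfold ChR_wt at hw ⊢
    rw [Fin.sum_univ_succ]
    simp only [Fin.cons_zero, Fin.cons_succ]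
    rw [hw]
    omega

/-- the weight along a line -/
private theorem ChR_line {k r : ℕ} (v : Fin r → Option (Fin k)) (i : Fin k) :
    ChR_wt (lineMap v i) = (∑ t, (v t).elim 0 (fun c => (c : ℕ))) +
      (i : ℕ) * (univ.filter (fun t => v t = none)).card := by
  have h1 : ∀ t, ((lineMap v i t : Fin k) : ℕ) = (v t).elim 0 (fun c => (c : ℕ)) +
      if v t = none then (i : ℕ) else 0 := by
    intro t
    unfold lineMap
    rcases v t with _ | c
    · simp
    · simp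
  unfold ChR_wt
  rw [Finset.sum_congr rfl fun t _ => h1 t, Finset.sum_add_distrib, ← Finset.sum_filter,
    Finset.sum_const, smul_eq_mul, Nat.mul_comm]

private theorem ChR_inj {k r n : ℕ} {w w' : Fin r → Fin k} {s s' : Fin n}
    (h : finProdFinEquiv (finFunctionFinEquiv w, s) =
      (finProdFinEquiv (finFunctionFinEquiv w', s') : Fin (k ^ r * n))) : w = w' ∧ s = s' := by
  have h1 := finProdFinEquiv.injective h
  rw [Prod.mk.injEq] at h1
  exact ⟨finFunctionFinEquiv.injective h1.1, h1.2⟩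

theorem tChR (h1 : LineRStmt) (h2 : HsPStmt) (h3 : ApPStmt) : ChRStmt := by
  classical
  intro k hk
  obtain ⟨r, n, C, hn1, hL⟩ := h1 k hk
  refine ⟨(k - 1) * r, C, ?_⟩
  intro g M S hg hM hS1 hInf hcop
  obtain ⟨L, hLdef⟩ : ∃ L, L = (k - 1) * r := ⟨_, rfl⟩
  rw [← hLdef]
  have hwL : ∀ w : Fin r → Fin k, ChR_wt w ≤ L := fun w => hLdef ▸ ChR_wt_le w
  obtain ⟨σ, hσ, hdvd, hne⟩ := h2 (k ^ r * n) (M * g ^ L) S hS1 hInf
  -- the multipliers
  obtain ⟨E, hE⟩ : ∃ E : Fin (k ^ r * n) → ℕ, ∀ w s,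
      E (finProdFinEquiv (finFunctionFinEquiv w, s)) = ChR_wt w :=
    ⟨fun l => ChR_wt (finFunctionFinEquiv.symm (finProdFinEquiv.symm l).1), fun w s => by
      simp only [Equiv.symm_apply_apply]⟩
  have hEL : ∀ l, E l ≤ L := by
    intro l
    have h4 : l = finProdFinEquiv (finFunctionFinEquiv (finFunctionFinEquiv.symm
        (finProdFinEquiv.symm l).1), (finProdFinEquiv.symm l).2) := by
      rw [Equiv.apply_symm_apply, Prod.mk.eta, Equiv.apply_symm_apply]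
    rw [h4, hE]
    exact hwL _
  have hg1 : ∀ i, 1 ≤ g ^ i := fun i => Nat.one_le_pow _ _ hg
  have hM1 : ∀ l, 1 ≤ M * g ^ E l := fun l => Nat.mul_pos hM (hg1 _)
  have hMB : ∀ l, M * g ^ E l ≤ M * g ^ L := fun l =>
    Nat.mul_le_mul_left _ (Nat.pow_le_pow_right hg (hEL l))
  have hcop' : ∀ i j, IsCoprime (((σ i).1 * (M * g ^ E i) : ℕ) : ℤ) (σ j).2 := by
    intro i j
    rw [Nat.cast_mul, Nat.cast_mul, Nat.cast_pow]
    exact IsCoprime.mul_left ((hcop _ (hσ j)).2.2 _ (hσ i))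
      (IsCoprime.mul_left (hcop _ (hσ j)).1 (IsCoprime.pow_left (hcop _ (hσ j)).2.1))
  have hch : ∀ p : ℕ, ∃ c : ℕ, p.Prime →
      ∀ l, ¬ (p : ℤ) ∣ (((σ l).1 * (M * g ^ E l) : ℕ) : ℤ) * c + (σ l).2 := by
    intro p
    by_cases hp : p.Prime
    · obtain ⟨c, hc⟩ := h3 (k ^ r * n) p (fun l => (σ l).1 * (M * g ^ E l)) (fun l => (σ l).2)
        hp hcop' hdvd
      exact ⟨c, fun _ => hc⟩
    · exact ⟨0, fun h => absurd h hp⟩
  choose cl hcl using hch
  obtain ⟨v, s, hv, hN⟩ := hL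
    (fun w s' => (σ (finProdFinEquiv (finFunctionFinEquiv w, s'))).1 *
      (M * g ^ E (finProdFinEquiv (finFunctionFinEquiv w, s'))))
    (fun w s' => (σ (finProdFinEquiv (finFunctionFinEquiv w, s'))).2) cl 0
    (fun w s' => Nat.mul_pos (hS1 _ (hσ _)) (hM1 _))
    (fun p hp w s' => hcl p hp _)
    (fun w s w' s' hww => by
      refine hne _ _ (fun he => hww ?_) _ _ (hM1 _) (hMB _) (hM1 _) (hMB _)
      obtain ⟨h5, h6⟩ := ChR_inj he
      rw [h5, h6])
  -- the line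
  obtain ⟨d, hd⟩ : ∃ d, d = (univ.filter (fun t => v t = none)).card := ⟨_, rfl⟩
  obtain ⟨x₀, hx₀⟩ : ∃ x₀ : ℕ, x₀ = ∑ t, (v t).elim 0 (fun c => (c : ℕ)) := ⟨_, rfl⟩
  have hd1 : 1 ≤ d := by
    obtain ⟨t, ht⟩ := hv
    rw [hd]
    exact Finset.card_pos.2 ⟨t, mem_filter.2 ⟨mem_univ _, ht⟩⟩
  have hline : ∀ i : Fin k, ChR_wt (lineMap v i) = x₀ + (i : ℕ) * d := by
    intro i
    rw [ChR_line, hd, hx₀]
  have hlast : x₀ + (k - 1) * d ≤ L := by
    have h4 := hline ⟨k - 1, by omega⟩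
    have h5 := hwL (lineMap v ⟨k - 1, by omega⟩)
    rw [h4] at h5
    exact h5
  -- the index for every place
  have hex : ∀ j, ∃ (w : Fin r → Fin k) (s' : Fin n), j ≤ L → (ChR_wt w = j ∧
      ∀ i : Fin k, j = x₀ + (i : ℕ) * d → w = lineMap v i ∧ s' = s i) := by
    intro j
    by_cases hj : ∃ i : Fin k, j = x₀ + (i : ℕ) * d
    · obtain ⟨i, hi⟩ := hj
      refine ⟨lineMap v i, s i, fun _ => ⟨by rw [hline, hi], fun i' hi' => ?_⟩⟩
      have h4 : (i : ℕ) * d = (i' : ℕ) * d := by omega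
      have h5 : i = i' := Fin.ext (Nat.eq_of_mul_eq_mul_right hd1 h4)
      rw [h5]
      exact ⟨rfl, rfl⟩
    · by_cases hjL : j ≤ L
      · obtain ⟨w, hw⟩ := ChR_word k hk r j (hLdef ▸ hjL)
        exact ⟨w, ⟨0, hn1⟩, fun _ => ⟨hw, fun i hi => absurd ⟨i, hi⟩ hj⟩⟩
      · exact ⟨lineMap v ⟨0, hk⟩, ⟨0, hn1⟩, fun h => absurd h hjL⟩
  choose W τ hWτ using hex
  refine ⟨fun j => (σ (finProdFinEquiv (finFunctionFinEquiv (W j), τ j))).1,
    fun j => (σ (finProdFinEquiv (finFunctionFinEquiv (W j), τ j))).2, x₀, d, hd1, hlast,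
    fun j _ => hσ _, ?_, ?_⟩
  · intro i j hij hjL
    have h4 : finProdFinEquiv (finFunctionFinEquiv (W i), τ i) ≠
        (finProdFinEquiv (finFunctionFinEquiv (W j), τ j) : Fin (k ^ r * n)) := by
      intro he
      obtain ⟨h5, -⟩ := ChR_inj he
      have h6 := (hWτ i (by omega)).1
      have h7 := (hWτ j hjL).1
      rw [h5] at h6
      omega
    have hB : 1 ≤ M * g ^ L := Nat.mul_pos hM (hg1 _)
    have h5 := hne _ _ h4 1 1 le_rfl hB le_rfl hB
    rw [mul_one, mul_one] at h5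
    exact h5
  · refine Set.infinite_of_forall_exists_gt fun N0 => ?_
    obtain ⟨N, hN0, -, hq, hp⟩ := hN (N0 + 1)
    choose q hq1 hq2 hq3 using hq
    refine ⟨M * N, ⟨Dvd.intro _ rfl, fun j => q (W j) (τ j), fun j hj => ⟨?_, hq1 _ _, hq3 _ _⟩,
      fun i hi => ?_⟩, ?_⟩
    · rw [hq2 (W j) (τ j), hE, (hWτ j hj).1]
      push_cast
      ring
    · have hij : x₀ + i * d ≤ L := by
        have h4 : i * d ≤ (k - 1) * d := Nat.mul_le_mul_right _ (by omega)
        omega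
      obtain ⟨h5, h6⟩ := (hWτ (x₀ + i * d) hij).2 ⟨i, hi⟩ rfl
      obtain ⟨p, hpp, hpe⟩ := hp ⟨i, hi⟩
      have h7 : q (W (x₀ + i * d)) (τ (x₀ + i * d)) = p := by
        rw [h5, h6]
        have h8 := hq2 (lineMap v ⟨i, hi⟩) (s ⟨i, hi⟩)
        rw [← hpe] at h8
        exact_mod_cast h8
      show (q (W (x₀ + i * d)) (τ (x₀ + i * d))).Prime
      rw [h7]
      exact hpp
    · calc N0 < N := hN0
        _ = 1 * N := (one_mul _).symm
        _ ≤ M * N := Nat.mul_le_mul_right _ hM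

end Pool.Agent.Lib.BE
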