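import Pool.Agent.Lib.BE.SpecR

/-!
PROJECT BE, module CmR: assembly of Maynard-Tao in bins with rough values of all forms.
-/

set_option autoImplicit false

namespace Pool.Agent.Lib.BE

open Finset
open Pool.Agent.Lib.MP_9f2731_nt.GP
open Pool.Agent.Lib.MP_9f2731_nt.GP.Sv
open Pool.Agent.Lib.MP_9f2731_nt.QL
open Pool.Agent.Lib.MP_9f2731_nt.QL.Sw
open Pool.Agent.Lib.MP_9f2731_nt.CG
open Pool.Agent.Lib.MP_9f2731_nt.CG.Ma
open Pool.Agent.Lib.MP_9f2731_nt.CG.Mf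

private theorem CmR_big (ε : ℝ) (hε : 0 < ε) : ∃ X0 : ℝ, ∀ X : ℕ, X0 ≤ X →
    (0 : ℝ) < X ∧ 1 ≤ Real.log (RR X) ∧ 8 / ε ≤ Real.log (RR X) ∧
    (X : ℝ) ^ ((3 : ℝ) / 5) ≤ X * ε / 8 := by
  refine ⟨Real.exp (5 * max 1 (8 / ε)), fun X hX => ?_⟩
  have hX0 : (0 : ℝ) < X := lt_of_lt_of_le (Real.exp_pos _) hX
  have hlog : 5 * max 1 (8 / ε) ≤ Real.log X := by
    rw [← Real.log_exp (5 * max 1 (8 / ε))]
    exact Real.log_le_log (Real.exp_pos _) hX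
  have hRlog : Real.log (RR X) = Real.log X / 5 := by
    unfold RR
    rw [Real.log_rpow hX0]
    ring
  have hm1 := le_max_left (1 : ℝ) (8 / ε)
  have hm2 := le_max_right (1 : ℝ) (8 / ε)
  refine ⟨hX0, by rw [hRlog]; linarith, by rw [hRlog]; linarith, ?_⟩
  have h25 : 8 / ε ≤ (X : ℝ) ^ ((2 : ℝ) / 5) := by
    rw [Real.rpow_def_of_pos hX0]
    have h := Real.add_one_le_exp (Real.log X * (2 / 5))
    linarith
  have h35 : (X : ℝ) ^ ((3 : ℝ) / 5) * (X : ℝ) ^ ((2 : ℝ) / 5) = X := by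
    rw [← Real.rpow_add hX0]
    norm_num
  have h4 := mul_le_mul_of_nonneg_left h25 (Real.rpow_nonneg hX0.le ((3 : ℝ) / 5))
  rw [h35] at h4
  have h5 : (X : ℝ) ^ ((3 : ℝ) / 5) = (X : ℝ) ^ ((3 : ℝ) / 5) * (8 / ε) * ε / 8 := by
    field_simp
  rw [h5]
  have h6 := mul_le_mul_of_nonneg_right h4 hε.le
  linarith

private theorem CmR_G {W X K : ℕ} {M : ℝ} (hW : 1 ≤ W) (hK : 1 ≤ K)
    (h1 : 1 ≤ Real.log (RR X)) (hM : M ≤ Real.log (RR X)) :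
    1 ≤ GG W X ^ K ∧ M ≤ GG W X ^ K := by
  have hd0 : 0 < dlV W := dlV_pos hW
  have hd1 : dlV W ≤ 1 := dlV_le_one W
  have hG : Real.log (RR X) ≤ GG W X := by
    unfold GG
    rw [le_div_iff₀ hd0]
    have h3 : Real.log (RR X) ≤ Real.log (RR X) ^ 3 := le_self_pow₀ h1 (by norm_num)
    have h4 : Real.log (RR X) * dlV W ≤ Real.log (RR X) * 1 :=
      mul_le_mul_of_nonneg_left hd1 (by linarith)
    linarith
  have hG1 : 1 ≤ GG W X := h1.trans hG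
  have h2 : GG W X ≤ GG W X ^ K := le_self_pow₀ hG1 (by omega)
  exact ⟨hG1.trans h2, (hM.trans hG).trans h2⟩

private theorem CmR_one {S D J η ε A Z x : ℝ} (hZ : 0 < Z) (hε : 0 < ε) (hη0 : 0 < η)
    (hη1 : η ≤ ε / 8) (hη2 : η ≤ A / 4) (hD1 : Z / 50 ≤ D) (hD2 : D ≤ 3 * Z) (hJ1 : A / 2 ≤ J)
    (hJ2 : J ≤ A) (hx : x ≤ Z * ε / 8) (h : |S - D * J| ≤ D * η + x) :
    Z * (A / 100 - ε) ≤ S ∧ S ≤ Z * (3 * A + ε) := by
  obtain ⟨h1, h2⟩ := abs_le.1 h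
  have hD0 : 0 ≤ D := by linarith
  have hZε : 0 < Z * ε := mul_pos hZ hε
  have p3 : 0 ≤ Z * (ε / 8 - η) := mul_nonneg hZ.le (by linarith)
  constructor
  · have p1 : 0 ≤ D * (J - A / 2) := mul_nonneg hD0 (by linarith)
    have p2 : 0 ≤ (D - Z / 50) * (A / 2 - η) := mul_nonneg (by linarith) (by linarith)
    nlinarith
  · have p1 : 0 ≤ D * (A - J) := mul_nonneg hD0 (by linarith)
    have p2 : 0 ≤ (3 * Z - D) * (A + η) := mul_nonneg (by linarith) (by linarith)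
    nlinarith

private theorem CmR_two {S D Q η ε A Z x : ℝ} (hZ : 0 < Z) (hε : 0 < ε) (hη0 : 0 < η)
    (hη1 : η ≤ ε / 8) (hA : 0 ≤ A) (hD0 : 0 ≤ D) (hD2 : D ≤ 3 * Z) (hQ : Q ≤ A)
    (hx : x ≤ Z * ε / 8) (h : S ≤ D * (8 / 3 * Q + η) + x) :
    S ≤ Z * (8 * A + ε) := by
  have hZε : 0 < Z * ε := mul_pos hZ hε
  have p3 : 0 ≤ Z * (ε / 8 - η) := mul_nonneg hZ.le (by linarith)
  have p1 : 0 ≤ D * (A - Q) := mul_nonneg hD0 (by linarith)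
  have p2 : 0 ≤ (3 * Z - D) * (8 / 3 * A + η) := mul_nonneg (by linarith) (by linarith)
  nlinarith

theorem tCmR (h1 : TnCStmt) (h2 : BiRStmt) (h3 : MaCStmt) (h4 : MbCStmt) (h5 : MhCStmt)
    (h6 : UpCStmt) (h7 : PrCStmt) (h8 : MgRStmt) : CmRStmt := by
  classical
  intro m hm
  obtain ⟨n, r, P, bd, 𝒜, α, T, hn, hD⟩ := h1 m hm
  have hT := hD.Tp
  have hα := hD.ap
  have hmr : (1 : ℝ) ≤ m := by exact_mod_cast hm
  have hnr : (1 : ℝ) ≤ n := by exact_mod_cast hn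
  obtain ⟨ε, hεd⟩ : ∃ ε : ℝ, ε = T / (10 ^ 4 * (m * n ^ 2)) := ⟨_, rfl⟩
  have hε : 0 < ε := by
    rw [hεd]
    positivity
  have hαT : 0 < α * T := mul_pos hα hT
  obtain ⟨η, hη0, hη1, hη2⟩ : ∃ η : ℝ, 0 < η ∧ η ≤ ε / 8 ∧ η ≤ α * T / 4 :=
    ⟨min (ε / 8) (α * T / 4), lt_min (by linarith) (by linarith), min_le_left _ _,
      min_le_right _ _⟩
  obtain ⟨XA, hA⟩ := h3 (m * n) r P bd 𝒜 hD.vda η hη0
  obtain ⟨XB, hB⟩ := h4 (m * n) r P bd 𝒜 hD.vda η hη0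
  obtain ⟨XH, hH⟩ := h5
  obtain ⟨XU, hU⟩ := h6
  obtain ⟨XP, hP⟩ := h7 (m * n) r P bd 𝒜 hD.vda hD.half hD.ipn hD.imp η hη0
  obtain ⟨κ, w1, XM, hκ, hM⟩ := h8 (m * n) r P bd 𝒜 hD.vda (T / 10 ^ 8) (by positivity)
  obtain ⟨XG, hG⟩ := CmR_big ε hε
  refine ⟨n, hn, κ, w1, max (max (max XA XB) (max XH XU)) (max (max XP XM) XG), hκ,
    fun X w V p0 a c hX hw1 hS hBv hcop => ?_⟩
  simp only [max_le_iff] at hX
  obtain ⟨⟨⟨hXA, hXB⟩, hXH, hXU⟩, ⟨hXP, hXM⟩, hXG⟩ := hX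
  obtain ⟨hX0, hL1, hL2, hX35⟩ := hG X hXG
  have hK : 1 ≤ m * n := Nat.mul_pos hm hn
  have hW : 1 ≤ V * p0 := Nat.mul_pos hS.hV hS.hp.pos
  obtain ⟨hG1, hG2⟩ := CmR_G hW hK hL1 hL2
  have hZ : 0 < (X : ℝ) * GG (V * p0) X ^ (m * n) := mul_pos hX0 (by linarith)
  have hXZ : (X : ℝ) ≤ (X : ℝ) * GG (V * p0) X ^ (m * n) * ε / 8 := by
    have h8 : 1 ≤ GG (V * p0) X ^ (m * n) * ε / 8 := by
      rw [div_le_iff₀ hε] at hG2
      linarith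
    have h9 := mul_le_mul_of_nonneg_left h8 hX0.le
    linarith
  have hDl : ∀ l, (X : ℝ) * GG (V * p0) X ^ (m * n) / 50 ≤
      ((BpC X (a l) (c l)).card : ℝ) * (Real.log (RR X) ^ 4 * GG (V * p0) X ^ (m * n - 1)) ∧
      ((BpC X (a l) (c l)).card : ℝ) * (Real.log (RR X) ^ 4 * GG (V * p0) X ^ (m * n - 1)) ≤
        3 * ((X : ℝ) * GG (V * p0) X ^ (m * n)) := by
    intro l
    refine ⟨?_, hU X w V p0 (m * n) a c l hXU hS⟩
    have h8 := hH X w V p0 (m * n) a c l hXH hS (hBv l)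
    linarith
  obtain ⟨𝓡, h𝓡⟩ : ∃ 𝓡 : Finset ℕ,
      𝓡 = (Icc 1 X).filter (fun b => ∀ l, Rgh ((X : ℝ) ^ κ) (a l * b + c l)) := ⟨_, rfl⟩
  have hsub : 𝓡 ⊆ Icc 1 X := by
    rw [h𝓡]
    exact Finset.filter_subset _ _
  have hsd : Icc 1 X \ 𝓡 =
      (Icc 1 X).filter (fun b => ¬ ∀ l, Rgh ((X : ℝ) ^ κ) (a l * b + c l)) := by
    rw [h𝓡]
    exact (Finset.filter_not _ _).symm
  suffices hmain : ∃ b ∈ 𝓡, (m : ℝ) / 10 ^ 6 ≤ ((univ.filter (fun i : Fin m => ∃ t : Fin n,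
      b ∈ BpC X (a (finProdFinEquiv (i, t))) (c (finProdFinEquiv (i, t))))).card : ℝ) by
    obtain ⟨b, hb, hcard⟩ := hmain
    rw [h𝓡, Finset.mem_filter] at hb
    exact ⟨b, hb.1, hb.2, hcard⟩
  refine h2 m n (Icc 1 X) 𝓡 (fun b => WWC (V * p0) X P 𝒜 a c b ^ 2)
    (fun i t => BpC X (a (finProdFinEquiv (i, t))) (c (finProdFinEquiv (i, t))))
    ((X : ℝ) * GG (V * p0) X ^ (m * n)) T α ε hm hn hZ hT hα (fun b => sq_nonneg _) hsub
    (fun i t => Finset.filter_subset _ _) hD.lo hD.hi hεd ?_ ?_ ?_ ?_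
  · have h8 := (abs_le.1 (hA X w V p0 a c hXA hS)).2
    have h9 : (X : ℝ) * GG (V * p0) X ^ (m * n) * Iq P 𝒜 ≤
        (X : ℝ) * GG (V * p0) X ^ (m * n) * T := mul_le_mul_of_nonneg_left hD.I1 hZ.le
    have h10 : (X : ℝ) * GG (V * p0) X ^ (m * n) * η ≤
        (X : ℝ) * GG (V * p0) X ^ (m * n) * (ε / 8) := mul_le_mul_of_nonneg_left hη1 hZ.le
    have h11 : (X : ℝ) * ε ≤ (X : ℝ) * GG (V * p0) X ^ (m * n) * ε := by
      have h12 := mul_le_mul_of_nonneg_left hG1 hX0.le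
      have h13 := mul_le_mul_of_nonneg_right h12 hε.le
      linarith
    have h14 : 0 < (X : ℝ) * ε := mul_pos hX0 hε
    show ∑ b ∈ Icc 1 X, WWC (V * p0) X P 𝒜 a c b ^ 2 ≤ _
    nlinarith
  · have h8 := hM X w V p0 a c hXM hw1 hS hcop
    show ∑ b ∈ Icc 1 X \ 𝓡, WWC (V * p0) X P 𝒜 a c b ^ 2 ≤ _
    rw [hsd, mul_assoc]
    refine le_trans (le_of_eq ?_) h8
    exact Finset.sum_congr (Finset.filter_congr_decidable _ _ _) (fun _ _ => rfl)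
  · intro i t
    obtain ⟨hJ1, hJ2⟩ := hD.J1 (finProdFinEquiv (i, t))
    obtain ⟨hD1, hD2⟩ := hDl (finProdFinEquiv (i, t))
    have h8 := hB X w V p0 a c (finProdFinEquiv (i, t)) hXB hS (hBv _)
    have h9 : |∑ b ∈ BpC X (a (finProdFinEquiv (i, t))) (c (finProdFinEquiv (i, t))),
        WWC (V * p0) X P 𝒜 a c b ^ 2 -
        ((BpC X (a (finProdFinEquiv (i, t))) (c (finProdFinEquiv (i, t)))).card : ℝ) *
          (Real.log (RR X) ^ 4 * GG (V * p0) X ^ (m * n - 1)) *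
            Jq P 𝒜 (finProdFinEquiv (i, t))| ≤
        ((BpC X (a (finProdFinEquiv (i, t))) (c (finProdFinEquiv (i, t)))).card : ℝ) *
          (Real.log (RR X) ^ 4 * GG (V * p0) X ^ (m * n - 1)) * η + X := by
      simpa only [mul_assoc] using h8
    have h10 := CmR_one hZ hε hη0 hη1 hη2 hD1 hD2 hJ1 hJ2 hXZ h9
    exact ⟨h10.1, by rw [show 3 * α * T = 3 * (α * T) by ring]; exact h10.2⟩
  · intro i t t' htt
    have hne : (finProdFinEquiv (i, t) : Fin (m * n)) ≠ finProdFinEquiv (i, t') := by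
      intro h
      have h8 := finProdFinEquiv.injective h
      exact htt (by simpa using h8)
    obtain ⟨hD1, hD2⟩ := hDl (finProdFinEquiv (i, t))
    have h8 := hP X w V p0 a c (finProdFinEquiv (i, t)) (finProdFinEquiv (i, t')) hXP hS
      (hBv _) hne
    have h9 : ∑ b ∈ BpC X (a (finProdFinEquiv (i, t))) (c (finProdFinEquiv (i, t))) ∩
          BpC X (a (finProdFinEquiv (i, t'))) (c (finProdFinEquiv (i, t'))),
        WWC (V * p0) X P 𝒜 a c b ^ 2 ≤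
        ((BpC X (a (finProdFinEquiv (i, t))) (c (finProdFinEquiv (i, t)))).card : ℝ) *
          (Real.log (RR X) ^ 4 * GG (V * p0) X ^ (m * n - 1)) *
            (8 / 3 * Jq2 P 𝒜 (finProdFinEquiv (i, t)) (finProdFinEquiv (i, t')) + η) + X := by
      simpa only [mul_assoc] using h8
    have h10 := CmR_two hZ hε hη0 hη1 (by positivity) (by linarith) hD2 (hD.J2 _ _ hne) hXZ h9
    rw [show 8 * α ^ 2 * T = 8 * (α ^ 2 * T) by ring]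
    exact h10

end Pool.Agent.Lib.BE
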