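import Pool.Agent.Lib.BE.SpecR

/-!
PROJECT BE, R, module McR (helper14): the mass on the multiples of one prime for the forms a b + c (port of CG/Mf/MfC).
-/

set_option autoImplicit false

namespace Pool.Agent.Lib.BE

open Finset
open Pool.Agent.Lib.MP_9f2731_nt.GP
open Pool.Agent.Lib.MP_9f2731_nt.GP.Sv
open Pool.Agent.Lib.MP_9f2731_nt.QL
open Pool.Agent.Lib.MP_9f2731_nt.QL.Sw
open Pool.Agent.Lib.MP_9f2731_nt.CG
open Pool.Agent.Lib.MP_9f2731_nt.CG.Ma
open Pool.Agent.Lib.MP_9f2731_nt.CG.Mf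

/-- the square of the weight -/
private theorem McR_sq (W X : ℕ) {K r : ℕ} (P : Fin r → Pf) (𝒜 : Finset (Fin K → Fin r)) (a c : Fin K → ℕ)
    (b : ℕ) :
    WWC W X P 𝒜 a c b ^ 2 = ∑ v ∈ 𝒜, ∑ u ∈ 𝒜, ∏ j, (AF W (RR X) (pfn (P (v j)) (RR X)) (a j * b + c j) *
      AF W (RR X) (pfn (P (u j)) (RR X)) (a j * b + c j)) := by
  unfold WWC
  rw [sq, sum_mul_sum]
  exact sum_congr rfl fun v _ => sum_congr rfl fun u _ => prod_mul_distrib.symm

/-- the form `a b + c` is divisible by p on one class -/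
private theorem McR_cls (a c0 p : ℕ) (hp : p.Prime) (ha : ¬ p ∣ a) :
    ∃ c' : ℕ, ∀ b : ℕ, (p ∣ a * b + c0 ↔ b ≡ c' [MOD p]) := by
  have : Fact p.Prime := ⟨hp⟩
  have ha' : (a : ZMod p) ≠ 0 := by
    rw [Ne, ZMod.natCast_eq_zero_iff]
    exact ha
  refine ⟨(-(a : ZMod p)⁻¹ * c0).val, fun b => ?_⟩
  rw [← ZMod.natCast_eq_zero_iff, ← ZMod.natCast_eq_natCast_iff, ZMod.natCast_zmod_val]
  push_cast
  constructor
  · intro h
    have h1 : (a : ZMod p) * b = -c0 := by linear_combination h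
    calc (b : ZMod p) = (a : ZMod p)⁻¹ * ((a : ZMod p) * b) := by
          rw [← mul_assoc, inv_mul_cancel₀ ha', one_mul]
      _ = _ := by rw [h1]; ring
  · intro h
    have h2 : (a : ZMod p) * (a : ZMod p)⁻¹ = 1 := mul_inv_cancel₀ ha'
    rw [h]
    linear_combination (-(c0 : ZMod p)) * h2

/-- two different forms are not both divisible by p -/
private theorem McR_uniq {p a b c a' c' : ℕ} (hd : ¬ p ∣ Nat.dist (a * c') (a' * c))
    (h1 : p ∣ a * b + c) (h2 : p ∣ a' * b + c') : False := by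
  have h3 : (p : ℤ) ∣ (a : ℤ) * b + c := by exact_mod_cast h1
  have h4 : (p : ℤ) ∣ (a' : ℤ) * b + c' := by exact_mod_cast h2
  have h5 : (p : ℤ) ∣ (a : ℤ) * c' - a' * c := by
    have h6 : (a : ℤ) * c' - a' * c = a * ((a' : ℤ) * b + c') - a' * ((a : ℤ) * b + c) := by ring
    rw [h6]
    exact dvd_sub (Dvd.dvd.mul_left h4 _) (Dvd.dvd.mul_left h3 _)
  apply hd
  rcases le_total (a * c') (a' * c) with h | h
  · rw [Nat.dist_eq_sub_of_le h]
    have h7 : (p : ℤ) ∣ ((a' * c - a * c' : ℕ) : ℤ) := by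
      rw [Nat.cast_sub h]
      push_cast
      rw [← dvd_neg, neg_sub]
      exact h5
    exact_mod_cast h7
  · rw [Nat.dist_eq_sub_of_le_right h]
    have h7 : (p : ℤ) ∣ ((a * c' - a' * c : ℕ) : ℤ) := by
      rw [Nat.cast_sub h]
      push_cast
      exact h5
    exact_mod_cast h7

/-- the parameters are large -/
private theorem McR_large (A : ℝ) (N : ℕ) : ∃ X0 : ℝ, ∀ X : ℕ, X0 ≤ X →
    1 ≤ Real.log (Real.log X) ∧ 1 ≤ Real.log (RR X) ∧ 2 ≤ RR X ∧ A * Real.log (RR X) ^ N ≤ RR X := by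
  have t1 : Filter.Tendsto (fun X : ℕ => Real.log (Real.log (X : ℝ))) Filter.atTop Filter.atTop :=
    Real.tendsto_log_atTop.comp (Real.tendsto_log_atTop.comp tendsto_natCast_atTop_atTop)
  have t2 : Filter.Tendsto (fun X : ℕ => RR X) Filter.atTop Filter.atTop :=
    (tendsto_rpow_atTop (by norm_num : (0 : ℝ) < 1 / 5)).comp tendsto_natCast_atTop_atTop
  have t3 : Filter.Tendsto (fun X : ℕ => Real.log (RR X)) Filter.atTop Filter.atTop :=
    Real.tendsto_log_atTop.comp t2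
  have hc : 0 < 1 / (|A| + 1) := by positivity
  have t4 : ∀ᶠ X : ℕ in Filter.atTop,
      ‖Real.log (RR X) ^ N‖ ≤ 1 / (|A| + 1) * ‖id (RR X)‖ :=
    t2.eventually ((Real.isLittleO_pow_log_id_atTop (n := N)).bound hc)
  obtain ⟨N0, hN0⟩ := Filter.eventually_atTop.1 ((((t1.eventually_ge_atTop 1).and
    (t3.eventually_ge_atTop 1)).and (t2.eventually_ge_atTop 2)).and t4)
  refine ⟨N0, fun X hX => ?_⟩
  obtain ⟨⟨⟨h1, h2⟩, h3⟩, h4⟩ := hN0 X (Nat.cast_le.1 hX)
  refine ⟨h1, h2, h3, ?_⟩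
  simp only [id, Real.norm_eq_abs] at h4
  have h5 : 0 ≤ RR X := by linarith
  rw [abs_of_nonneg h5, abs_of_nonneg (pow_nonneg (by linarith) N)] at h4
  have h6 : 0 ≤ Real.log (RR X) ^ N := pow_nonneg (by linarith) N
  have h7 : 0 < |A| + 1 := by positivity
  calc A * Real.log (RR X) ^ N ≤ (|A| + 1) * Real.log (RR X) ^ N :=
        mul_le_mul_of_nonneg_right (by linarith [le_abs_self A]) h6
    _ ≤ (|A| + 1) * (1 / (|A| + 1) * RR X) := mul_le_mul_of_nonneg_left h4 h7.le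
    _ = RR X := by field_simp

/-- the product of the bounds -/
private theorem McR_prodT {K : ℕ} (l : Fin K) (A θ : ℝ) :
    ∏ j : Fin K, (A * (if j = l then θ else 1)) = A ^ K * θ := by
  rw [prod_mul_distrib, prod_const, card_univ, Fintype.card_fin, Finset.prod_ite_eq' univ l,
    if_pos (mem_univ _)]

/-- the product of the cutoffs -/
private theorem McR_prody {K r : ℕ} (bd : Fin r → ℝ) (v u : Fin K → Fin r) (R B : ℝ) (hR : 1 ≤ R) (hB : 0 ≤ B)
    (hv : ∑ j, bd (v j) ≤ 1) (hu : ∑ j, bd (u j) ≤ 1) :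
    ∏ i : Fin K × Bool, (R ^ bd (cond i.2 (v i.1) (u i.1)) * B) ≤ R * R * B ^ (2 * K) := by
  have hR0 : 0 < R := by linarith
  have e1 : ∏ i : Fin K × Bool, (R ^ bd (cond i.2 (v i.1) (u i.1)) * B) =
      R ^ (∑ j, bd (v j)) * R ^ (∑ j, bd (u j)) * B ^ (2 * K) := by
    rw [prod_mul_distrib, prod_const, card_univ, Fintype.card_prod, Fintype.card_fin, Fintype.card_bool,
      Fintype.prod_prod_type, Real.rpow_sum_of_pos hR0, Real.rpow_sum_of_pos hR0, ← prod_mul_distrib,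
      mul_comm K 2]
    congr 1
    exact prod_congr rfl fun j _ => by rw [Fintype.prod_bool, cond_true, cond_false]
  rw [e1]
  have h1 : ∀ s : ℝ, s ≤ 1 → R ^ s ≤ R := fun s hs => by
    calc R ^ s ≤ R ^ (1 : ℝ) := Real.rpow_le_rpow_of_exponent_le hR hs
      _ = R := Real.rpow_one R
  exact mul_le_mul_of_nonneg_right (mul_le_mul (h1 _ hv) (h1 _ hu) (by positivity) hR0.le) (by positivity)

/-- products of bounded factors -/
private theorem McR_absprod {K : ℕ} (x T : Fin K → ℝ) (h : ∀ j, |x j| ≤ T j) : ∏ j, x j ≤ ∏ j, T j :=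
  calc ∏ j, x j ≤ |∏ j, x j| := le_abs_self _
    _ = ∏ j, |x j| := Finset.abs_prod _ _
    _ ≤ ∏ j, T j := prod_le_prod (fun _ _ => abs_nonneg _) fun j _ => h j

theorem tMcR (h1 : S1CStmt) (h2 : PfBStmt) (h3 : AfPStmt) (h4 : MfTStmt) : McRStmt := by
  intro K r P bd 𝒜 hV
  have hPok : ∀ i, Pok (P i) := fun i s => ⟨(hV.be i s).1, ((hV.be i s).2).trans (hV.one i)⟩
  obtain ⟨C, XT, hC, hT⟩ := h4 r P hPok
  obtain ⟨C', hC', hS⟩ := h1 K
  have hMn : ∀ i, 0 ≤ (P i).M := fun i => sum_nonneg fun _ _ => abs_nonneg _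
  obtain ⟨M0, hM0, hM⟩ : ∃ M0 : ℝ, 0 ≤ M0 ∧ ∀ i, (P i).M ≤ M0 :=
    ⟨∑ i, (P i).M, sum_nonneg fun i _ => hMn i,
      fun i => single_le_sum (f := fun i => (P i).M) (fun i _ => hMn i) (mem_univ i)⟩
  obtain ⟨XL, hL⟩ := McR_large ((𝒜.card : ℝ) ^ 2 * (2 * M0) ^ (2 * K)) (4 * K)
  refine ⟨(𝒜.card : ℝ) ^ 2 * (C ^ K * Real.exp C') + 1, max XT XL, by positivity, ?_⟩
  intro X w V p0 p a c l hX hSt hp hpV hpR
  obtain ⟨hll, hL1, hR2, hLN⟩ := hL X ((le_max_right _ _).trans hX)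
  obtain ⟨-, hT2⟩ := hT X w V p0 0 (fun _ => 1) ((le_max_left _ _).trans hX)
    ⟨hSt.hp, hSt.hpV, hSt.hV, hSt.hw, hSt.hlog, hSt.hs, fun j => j.elim0, fun j => j.elim0,
      fun j => j.elim0, fun j => j.elim0, fun j => j.elim0⟩
  have hT2 := hT2 p hp hpV hpR
  have hX5 : RR X * RR X * RR X = (X : ℝ) ^ ((3 : ℝ) / 5) := by
    unfold RR
    rw [← Real.rpow_add_of_nonneg (by positivity) (by norm_num) (by norm_num),
      ← Real.rpow_add_of_nonneg (by positivity) (by norm_num) (by norm_num)]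
    norm_num
  set R := RR X with hRd
  set G := GG (V * p0) X with hGd
  set θ := (Real.log p / Real.log R) ^ 2 + 1 / Real.sqrt (Real.log X) with hθ
  have hR1 : (1 : ℝ) ≤ R := by linarith
  have hw1 : 1 ≤ w := by
    have h5 : (1 : ℝ) ≤ w := le_trans (by nlinarith) hSt.hw
    exact_mod_cast h5
  have hV'' : 1 ≤ V * p0 * p :=
    Nat.one_le_iff_ne_zero.2 (mul_ne_zero (mul_ne_zero (by have := hSt.hV; omega) hSt.hp.ne_zero) hp.ne_zero)
  have hG0 : 0 ≤ G := by
    rw [hGd]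
    unfold GG
    have h5 : 0 < dlV (V * p0) :=
      dlV_pos (Nat.one_le_iff_ne_zero.2 (mul_ne_zero (by have := hSt.hV; omega) hSt.hp.ne_zero))
    rw [← hRd]
    positivity
  have hθ0 : 0 ≤ θ := by positivity
  have hpQ : p ∈ QsV (V * p0) R := mem_QsV.2 ⟨hp, hpV, Nat.le_floor hpR⟩
  obtain ⟨c1, hc⟩ := McR_cls (a l) (c l) p hp (hSt.ha l p hp hpV)
  -- the weight functions
  let g : Fin r → Fin K → ℕ → ℝ := fun i j =>
    if j = l then (fun n => pfn (P i) R n - pfn (P i) R (p * n)) else pfn (P i) R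
  have hg1 : ∀ i, g i l = fun n => pfn (P i) R n - pfn (P i) R (p * n) := fun i => if_pos rfl
  have hg2 : ∀ i j, j ≠ l → g i j = pfn (P i) R := fun i j hj => if_neg hj
  set B := 2 * M0 * Real.log R ^ 2 with hB
  have hB0 : 0 ≤ B := by positivity
  have hpfb : ∀ i n, |pfn (P i) R n| ≤ M0 * Real.log R ^ 2 := fun i n =>
    ((h2 (P i) R hR1 (hPok i)).1 n).trans (mul_le_mul_of_nonneg_right (hM i) (by positivity))
  have hpfs : ∀ i, Sup (R ^ bd i) (pfn (P i) R) := fun i =>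
    (h2 (P i) R hR1 (hPok i)).2.1 (bd i) fun s => (hV.be i s).2
  have hgB : ∀ i j n, |g i j n| ≤ B := by
    intro i j n
    have h5 : 0 ≤ M0 * Real.log R ^ 2 := by positivity
    by_cases hj : j = l
    · subst hj
      rw [hg1]
      refine (abs_sub _ _).trans ?_
      have h6 := hpfb i n
      have h7 := hpfb i (p * n)
      rw [hB]
      linarith
    · rw [hg2 i j hj]
      have h6 := hpfb i n
      rw [hB]
      linarith
  have hgS : ∀ i j, Sup (R ^ bd i) (g i j) := by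
    intro i j
    by_cases hj : j = l
    · subst hj
      rw [hg1]
      intro n hn
      have h6 : pfn (P i) R n = 0 := hpfs i n hn
      have h7 : pfn (P i) R (p * n) = 0 := by
        refine hpfs i (p * n) ?_
        rcases hn with h | h
        · exact Or.inl (by rw [h, mul_zero])
        · refine Or.inr (h.trans_le ?_)
          have : n ≤ p * n := Nat.le_mul_of_pos_left n hp.pos
          exact_mod_cast this
      show pfn (P i) R n - pfn (P i) R (p * n) = 0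
      rw [h6, h7, sub_zero]
    · rw [hg2 i j hj]
      exact hpfs i
  have hAF : ∀ b : ℕ, p ∣ a l * b + c l → ∀ i j,
      AF (V * p0) R (pfn (P i) R) (a j * b + c j) = AF (V * p0 * p) R (g i j) (a j * b + c j) := by
    intro b hb i j
    by_cases hj : j = l
    · subst hj
      rw [hg1]
      exact (h3 (V * p0) R (pfn (P i) R)).2.1 p _ hpQ hb
    · rw [hg2 i j hj]
      exact (h3 (V * p0) R (pfn (P i) R)).1 p _ hpQ
        (fun h5 => McR_uniq (hSt.hd j l hj p hp hpV) h5 hb)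
  have hgT : ∀ i k j b c2, |TTF (V * p0 * p) R (g i j) (g k j) b c2| ≤ C * G * (if j = l then θ else 1) := by
    intro i k j b c2
    by_cases hj : j = l
    · subst hj
      rw [hg1, hg1, if_pos rfl, mul_assoc C G θ]
      exact (hT2 i k b c2).2
    · rw [hg2 i j hj, hg2 k j hj, if_neg hj, mul_one]
      exact (hT2 i k b c2).1
  -- the sum for one pair
  have hpair : ∀ v ∈ 𝒜, ∀ u ∈ 𝒜, ∑ b ∈ (Icc 1 X).filter (fun b => p ∣ a l * b + c l),
      ∏ j, (AF (V * p0) R (pfn (P (v j)) R) (a j * b + c j) * AF (V * p0) R (pfn (P (u j)) R) (a j * b + c j)) ≤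
      X / p * ((C * G) ^ K * θ * Real.exp C') + R * R * B ^ (2 * K) := by
    intro v hv u hu
    have e1 : ∑ b ∈ (Icc 1 X).filter (fun b => p ∣ a l * b + c l),
        ∏ j, (AF (V * p0) R (pfn (P (v j)) R) (a j * b + c j) * AF (V * p0) R (pfn (P (u j)) R) (a j * b + c j)) =
        ∑ b ∈ (Icc 1 X).filter (fun b => b ≡ c1 [MOD p]),
        ∏ j, (AF (V * p0 * p) R (g (v j) j) (a j * b + c j) * AF (V * p0 * p) R (g (u j) j) (a j * b + c j)) := by
      have e2 : (Icc 1 X).filter (fun b => p ∣ a l * b + c l) = (Icc 1 X).filter (fun b => b ≡ c1 [MOD p]) :=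
        filter_congr fun b _ => hc b
      rw [← e2]
      refine sum_congr rfl fun b hb => prod_congr rfl fun j _ => ?_
      rw [hAF b (mem_filter.1 hb).2 (v j) j, hAF b (mem_filter.1 hb).2 (u j) j]
    rw [e1]
    have h5 := hS (Fin K) (V * p0 * p) w X p c1 R B (fun j => C * G * (if j = l then θ else 1)) a c
      (fun i => g (cond i.2 (v i.1) (u i.1)) i.1) (fun i => R ^ bd (cond i.2 (v i.1) (u i.1)))
      (by rw [Fintype.card_fin]) hw1 hV'' hp.one_le (by linarith)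
      (fun q hq => by
        obtain ⟨hq1, hq2, -⟩ := mem_QsV.1 hq
        refine ⟨?_, fun h6 => hq2 (Dvd.dvd.mul_left h6 _)⟩
        by_contra h6
        exact hq2 (Dvd.dvd.mul_right (hSt.hs q hq1 (not_lt.1 h6)) _))
      (fun j q hq => by
        obtain ⟨hq1, hq2, -⟩ := mem_QsV.1 hq
        exact hSt.ha j q hq1 fun h6 => hq2 (Dvd.dvd.mul_right h6 _))
      (fun j k hjk q hq => by
        obtain ⟨hq1, hq2, -⟩ := mem_QsV.1 hq
        exact hSt.hd j k hjk q hq1 fun h6 => hq2 (Dvd.dvd.mul_right h6 _))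
      (fun i n => hgB _ _ n)
      (fun i => ⟨by positivity, by
        calc R ^ bd (cond i.2 (v i.1) (u i.1)) ≤ R ^ (1 : ℝ) :=
              Real.rpow_le_rpow_of_exponent_le hR1 (hV.one _)
          _ = R := Real.rpow_one R, hgS _ _⟩)
      (fun j b c2 => hgT (v j) (u j) j b c2)
    have h6 := McR_prody bd v u R B hR1 hB0 (hV.simp v hv) (hV.simp u hu)
    have h7 := McR_prodT l (C * G) θ
    have h8 := McR_absprod (fun j => TTF (V * p0 * p) R (g (v j) j) (g (u j) j) 1 1)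
      (fun j => C * G * (if j = l then θ else 1)) (fun j => hgT (v j) (u j) j 1 1)
    rw [h7] at h5 h8
    have h9 : Real.exp (C' / w) ≤ Real.exp C' := by
      refine Real.exp_le_exp.2 (div_le_self hC'.le ?_)
      exact_mod_cast hw1
    have h10 : 0 ≤ (C * G) ^ K * θ := by positivity
    have h11 : (0 : ℝ) ≤ (X : ℝ) / p := by positivity
    have h12 := (abs_sub_le_iff.1 h5).1
    simp only [cond_true, cond_false] at h12 h6
    have h13 : (X : ℝ) / p * ∏ j, TTF (V * p0 * p) R (g (v j) j) (g (u j) j) 1 1 ≤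
        (X : ℝ) / p * ((C * G) ^ K * θ) := mul_le_mul_of_nonneg_left h8 h11
    have h14 : (X : ℝ) / p * ((C * G) ^ K * θ * (Real.exp (C' / w) - 1)) ≤
        (X : ℝ) / p * ((C * G) ^ K * θ * (Real.exp C' - 1)) :=
      mul_le_mul_of_nonneg_left (mul_le_mul_of_nonneg_left (by linarith) h10) h11
    have h15 : (X : ℝ) / p * ((C * G) ^ K * θ * Real.exp C') =
      (X : ℝ) / p * ((C * G) ^ K * θ) + (X : ℝ) / p * ((C * G) ^ K * θ * (Real.exp C' - 1)) := by ring
    linarith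
  -- the sum over the pairs
  have hsum : ∑ b ∈ (Icc 1 X).filter (fun b => p ∣ a l * b + c l), WWC (V * p0) X P 𝒜 a c b ^ 2 ≤
      ∑ v ∈ 𝒜, ∑ u ∈ 𝒜, (X / p * ((C * G) ^ K * θ * Real.exp C') + R * R * B ^ (2 * K)) := by
    rw [sum_congr rfl fun b _ => McR_sq (V * p0) X P 𝒜 a c b, sum_comm]
    refine sum_le_sum fun v hv => ?_
    rw [sum_comm]
    exact sum_le_sum fun u hu => hpair v hv u hu
  refine hsum.trans ?_
  rw [sum_const, sum_const, nsmul_eq_mul, nsmul_eq_mul, ← hX5]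
  have h16 : (𝒜.card : ℝ) ^ 2 * B ^ (2 * K) ≤ R := by
    have e1 : B ^ (2 * K) = (2 * M0) ^ (2 * K) * Real.log R ^ (4 * K) := by
      rw [hB, mul_pow, ← pow_mul]
      congr 2
      ring
    rw [e1, ← mul_assoc]
    exact hLN
  have h17 : (𝒜.card : ℝ) * ((𝒜.card : ℝ) * (X / p * ((C * G) ^ K * θ * Real.exp C') +
      R * R * B ^ (2 * K))) = X / p * (G ^ K * ((𝒜.card : ℝ) ^ 2 * (C ^ K * Real.exp C') * θ)) +
      R * R * ((𝒜.card : ℝ) ^ 2 * B ^ (2 * K)) := by
    rw [mul_pow]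
    ring
  rw [h17]
  have h18 : R * R * ((𝒜.card : ℝ) ^ 2 * B ^ (2 * K)) ≤ R * R * R :=
    mul_le_mul_of_nonneg_left h16 (by positivity)
  have h19 : (X : ℝ) / p * (G ^ K * ((𝒜.card : ℝ) ^ 2 * (C ^ K * Real.exp C') * θ)) ≤
      X / p * (G ^ K * (((𝒜.card : ℝ) ^ 2 * (C ^ K * Real.exp C') + 1) * θ)) := by
    refine mul_le_mul_of_nonneg_left (mul_le_mul_of_nonneg_left ?_ (by positivity)) (by positivity)
    nlinarith
  linarith

end Pool.Agent.Lib.BE
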