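import Pool.Agent.Lib.BE.SpecR

set_option autoImplicit false

namespace Pool.Agent.Lib.BE

open Finset
open Pool.Agent.Lib.MP_9f2731_nt.GP
open Pool.Agent.Lib.MP_9f2731_nt.GP.Sv
open Pool.Agent.Lib.MP_9f2731_nt.QL
open Pool.Agent.Lib.MP_9f2731_nt.QL.Sw
open Pool.Agent.Lib.MP_9f2731_nt.CG
open Pool.Agent.Lib.MP_9f2731_nt.CG.Ma
open Pool.Agent.Lib.MP_9f2731_nt.CG.Mf

private lemma ObR_list (z : ℝ) (hz : 0 ≤ z) : ∀ L : List ℕ, (∀ p ∈ L, z ≤ (p : ℝ)) →
    z ^ L.length ≤ ((L.prod : ℕ) : ℝ) := by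
  intro L
  induction L with
  | nil => intro _; simp
  | cons p L ih =>
    intro h
    rw [List.length_cons, List.prod_cons, pow_succ, mul_comm, Nat.cast_mul]
    exact mul_le_mul (h p List.mem_cons_self) (ih (fun x hx => h x (List.mem_cons_of_mem _ hx)))
      (pow_nonneg hz _) (Nat.cast_nonneg _)

private lemma ObR_len (κ : ℝ) (hκ : 0 < κ) (X q : ℕ) (hX : (9 : ℝ) ≤ Real.log X) (hq : 1 ≤ q)
    (hlq : Real.log q ≤ 2 * Real.log X) (hr : Rgh ((X : ℝ) ^ κ) q) :
    q.primeFactorsList.length ≤ ⌈2 / κ⌉₊ := by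
  have hX0 : (0 : ℝ) < X := by
    rcases Nat.eq_zero_or_pos X with h | h
    · subst h
      simp at hX
      linarith
    · exact_mod_cast h
  have hz : (0 : ℝ) < (X : ℝ) ^ κ := Real.rpow_pos_of_pos hX0 κ
  have h1 : ((X : ℝ) ^ κ) ^ q.primeFactorsList.length ≤ ((q.primeFactorsList.prod : ℕ) : ℝ) := by
    refine ObR_list _ hz.le _ ?_
    intro p hp
    exact (hr p (Nat.prime_of_mem_primeFactorsList hp) (Nat.dvd_of_mem_primeFactorsList hp)).le
  rw [Nat.prod_primeFactorsList (by omega)] at h1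
  have h2 : Real.log (((X : ℝ) ^ κ) ^ q.primeFactorsList.length) ≤ Real.log q :=
    Real.log_le_log (pow_pos hz _) h1
  rw [Real.log_pow, Real.log_rpow hX0] at h2
  have h3 : (q.primeFactorsList.length : ℝ) * κ ≤ 2 := by
    have h4 : ((q.primeFactorsList.length : ℝ) * κ) * Real.log X ≤ 2 * Real.log X := by
      calc ((q.primeFactorsList.length : ℝ) * κ) * Real.log X
          = (q.primeFactorsList.length : ℝ) * (κ * Real.log X) := by ring
        _ ≤ Real.log q := h2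
        _ ≤ 2 * Real.log X := hlq
    exact le_of_mul_le_mul_right h4 (by linarith)
  have h5 : (q.primeFactorsList.length : ℝ) ≤ 2 / κ := by
    rw [le_div_iff₀ hκ]
    exact h3
  have h6 : (q.primeFactorsList.length : ℝ) ≤ ((⌈2 / κ⌉₊ : ℕ) : ℝ) := le_trans h5 (Nat.le_ceil _)
  exact_mod_cast h6

private lemma ObR_log (X A b c : ℕ) (hX : (9 : ℝ) ≤ Real.log X) (hA : 1 ≤ A) (hb : b ≤ X)
    (hc1 : 1 ≤ c) (hc : c ≤ 4 * A) (hlA : Real.log (A : ℝ) ≤ (Real.log X) ^ ((1 : ℝ) / 2)) :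
    Real.log ((A * b + c : ℕ) : ℝ) ≤ 2 * Real.log X := by
  have hX1 : 1 ≤ X := by
    rcases Nat.eq_zero_or_pos X with h | h
    · subst h
      simp at hX
      linarith
    · exact h
  have h1 : A * b + c ≤ 5 * A * X := by
    have h2 : A * b ≤ A * X := Nat.mul_le_mul_left _ hb
    have h3 : 4 * A * 1 ≤ 4 * A * X := Nat.mul_le_mul_left _ hX1
    nlinarith
  have hA0 : (0 : ℝ) < A := by exact_mod_cast hA
  have hX0 : (0 : ℝ) < X := by exact_mod_cast hX1
  have h4 : Real.log ((A * b + c : ℕ) : ℝ) ≤ Real.log ((5 * A * X : ℕ) : ℝ) := by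
    refine Real.log_le_log ?_ (by exact_mod_cast h1)
    have : 0 < A * b + c := by omega
    exact_mod_cast this
  have h5 : Real.log ((5 * A * X : ℕ) : ℝ) = Real.log 5 + Real.log A + Real.log X := by
    push_cast
    rw [Real.log_mul (by positivity) hX0.ne', Real.log_mul (by norm_num) hA0.ne']
  have h6 : Real.log 5 ≤ 4 := by
    have := Real.log_le_sub_one_of_pos (show (0 : ℝ) < 5 by norm_num)
    linarith
  have h7 : (Real.log X) ^ ((1 : ℝ) / 2) ≤ Real.log X / 3 := by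
    rw [← Real.sqrt_eq_rpow, Real.sqrt_le_left (by linarith)]
    nlinarith
  linarith

/-- Module ObR: occupied bins for arbitrary admissible forms M' l n + h l, all values almost primes
(a port of ObG) -/
theorem tObR (h1 : BinRStmt) (h2 : BvqCStmt) (h3 : VwCStmt) (h4 : StGStmt) : ObRmStmt := by
  classical
  intro m hm
  obtain ⟨n, hn, κ, w0, X3, hκ, hbin⟩ := h1 m hm
  refine ⟨n, ⌈2 / κ⌉₊, hn, ?_⟩
  intro M' h cl P hM hcop hne
  obtain ⟨ε1, hε, hbv⟩ := h2
  obtain ⟨w1, X1, hst⟩ := h4 (m * n) M' h cl (min ε1 (1 / 2)) (lt_min hε (by norm_num)) hM hcop hne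
  obtain ⟨X2, hbv2⟩ := hbv (max (max w1 w0) P)
  obtain ⟨X4, hvw⟩ := h3 P ε1 hε
  refine ⟨max (max (max X1 X4) (max X2 X3)) (Real.exp 9), ?_⟩
  intro X hX'
  have hX : max (max X1 X4) (max X2 X3) ≤ X := le_trans (le_max_left _ _) hX'
  have hXe : Real.exp 9 ≤ X := le_trans (le_max_right _ _) hX'
  have hXl : (9 : ℝ) ≤ Real.log X := by
    rw [← Real.log_exp 9]
    exact Real.log_le_log (Real.exp_pos 9) hXe
  have hX1 : X1 ≤ X := le_trans (le_trans (le_max_left _ _) (le_max_left _ _)) hX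
  have hX4 : X4 ≤ X := le_trans (le_trans (le_max_right _ _) (le_max_left _ _)) hX
  have hX2 : X2 ≤ X := le_trans (le_trans (le_max_left _ _) (le_max_right _ _)) hX
  have hX3 : X3 ≤ X := le_trans (le_trans (le_max_right _ _) (le_max_right _ _)) hX
  obtain ⟨p0, hp0, hw1P, hB⟩ := hbv2 X hX2
  have hw1 : w1 < p0 := lt_of_le_of_lt (le_trans (le_max_left _ _) (le_max_left _ _)) hw1P
  have hw0 : w0 < p0 := lt_of_le_of_lt (le_trans (le_max_right _ _) (le_max_left _ _)) hw1P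
  have hP : P < p0 := lt_of_le_of_lt (le_max_right _ _) hw1P
  obtain ⟨-, -, -, -, hPw, hdv, -⟩ := hvw X p0 hX4 hp0
  obtain ⟨ν, c, hc, hStC, hl, hcl⟩ := hst X p0 hX1 hp0 hw1
  have hBv : ∀ l, BvC X p0 (Vx X p0 * M' l) (c l) := by
    intro l
    obtain ⟨a1, a2, a3, a4, a5⟩ := hl l
    refine hB (Vx X p0 * M' l) (c l) (hStC.ha1 l) a1 (le_trans a2 ?_) a3 a4 a5
    exact Real.rpow_le_rpow_of_exponent_le (by linarith) (min_le_left _ _)
  have hcv : ∀ l, (c l).Coprime (Vx X p0) ∧ ¬ p0 ∣ Vx X p0 * M' l := by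
    intro l
    obtain ⟨a1, a2, a3, a4, a5⟩ := hl l
    exact ⟨Nat.Coprime.coprime_dvd_right (Dvd.intro _ rfl) a5, a1⟩
  obtain ⟨b, hb, hrgh, hcard⟩ := hbin X (wx X) (Vx X p0) p0 (fun l => Vx X p0 * M' l) c hX3 hw0
    hStC hBv hcv
  have hkey : ∀ l, b ∈ BpC X (Vx X p0 * M' l) (c l) →
      RR X < b ∧ (Vx X p0 * M' l * b + c l).Prime := by
    intro l hbl
    exact (Finset.mem_filter.mp hbl).2
  have hV := hStC.hV
  refine ⟨Vx X p0 * b + ν, ?_, ?_, ?_, ?_⟩
  · -- some form occurs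
    have hpos : (0 : ℝ) < ((univ.filter (fun i : Fin m => ∃ t : Fin n,
        b ∈ BpC X ((fun l => Vx X p0 * M' l) (finProdFinEquiv (i, t)))
          (c (finProdFinEquiv (i, t))))).card : ℝ) := by
      refine lt_of_lt_of_le ?_ hcard
      have : (1 : ℝ) ≤ m := by exact_mod_cast hm
      positivity
    have hpos' : 0 < (univ.filter (fun i : Fin m => ∃ t : Fin n,
        b ∈ BpC X ((fun l => Vx X p0 * M' l) (finProdFinEquiv (i, t)))
          (c (finProdFinEquiv (i, t))))).card := by exact_mod_cast hpos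
    obtain ⟨i, hi⟩ := Finset.card_pos.mp hpos'
    obtain ⟨t, ht⟩ := (Finset.mem_filter.mp hi).2
    have hR := (hkey _ ht).1
    have h5 : (X : ℝ) ^ ((1 : ℝ) / 5) < (b : ℝ) := hR
    refine le_trans h5.le ?_
    have : b ≤ Vx X p0 * b + ν := by
      calc b = 1 * b := (one_mul b).symm
        _ ≤ Vx X p0 * b := Nat.mul_le_mul_right b hV
        _ ≤ Vx X p0 * b + ν := Nat.le_add_right _ _
    exact_mod_cast this
  · intro p hp hpP
    have hne0 : p ≠ p0 := by omega
    have hpw : p ≤ wx X := le_trans hpP hPw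
    have hpV : p ∣ Vx X p0 := by
      rcases (Nat.Prime.dvd_mul hp).1 (hdv p hp hpw) with h5 | h5
      · exact h5
      · exact absurd ((Nat.prime_dvd_prime_iff_eq hp hp0).1 h5) hne0
    have h6 : Vx X p0 * b ≡ 0 [MOD p] := (Nat.modEq_zero_iff_dvd).2 (Dvd.dvd.mul_right hpV b)
    have h7 : Vx X p0 * b + ν ≡ 0 + cl p [MOD p] := h6.add (hcl p hp hpw hne0)
    rwa [zero_add] at h7
  · intro l
    obtain ⟨a1, a2, a3, a4, a5⟩ := hl l
    refine ⟨Vx X p0 * M' l * b + c l, by omega, ?_, ?_⟩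
    · have := hc l
      push_cast
      rw [this]
      ring
    · refine ObR_len κ hκ X _ hXl (by omega) ?_ (hrgh l)
      refine ObR_log X (Vx X p0 * M' l) b (c l) hXl (hStC.ha1 l) (Finset.mem_Icc.mp hb).2 a3 a4 ?_
      refine le_trans a2 ?_
      exact Real.rpow_le_rpow_of_exponent_le (by linarith) (min_le_right _ _)
  · refine le_trans hcard ?_
    have hsub : (univ.filter (fun i : Fin m => ∃ t : Fin n,
        b ∈ BpC X ((fun l => Vx X p0 * M' l) (finProdFinEquiv (i, t)))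
          (c (finProdFinEquiv (i, t))))) ⊆
        (univ.filter (fun i : Fin m => ∃ t : Fin n, ∃ p : ℕ, p.Prime ∧
          (p : ℤ) = (M' (finProdFinEquiv (i, t)) : ℤ) * ((Vx X p0 * b + ν : ℕ) : ℤ) +
            h (finProdFinEquiv (i, t)))) := by
      intro i hi
      rw [Finset.mem_filter] at hi ⊢
      refine ⟨hi.1, ?_⟩
      obtain ⟨t, ht⟩ := hi.2
      refine ⟨t, Vx X p0 * M' (finProdFinEquiv (i, t)) * b + c (finProdFinEquiv (i, t)),
        (hkey _ ht).2, ?_⟩
      have := hc (finProdFinEquiv (i, t))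
      push_cast
      rw [this]
      ring
    have hle := Finset.card_le_card hsub
    have hle' : ((univ.filter (fun i : Fin m => ∃ t : Fin n,
        b ∈ BpC X ((fun l => Vx X p0 * M' l) (finProdFinEquiv (i, t)))
          (c (finProdFinEquiv (i, t))))).card : ℝ) ≤
        ((univ.filter (fun i : Fin m => ∃ t : Fin n, ∃ p : ℕ, p.Prime ∧
          (p : ℤ) = (M' (finProdFinEquiv (i, t)) : ℤ) * ((Vx X p0 * b + ν : ℕ) : ℤ) +
            h (finProdFinEquiv (i, t)))).card : ℝ) := by exact_mod_cast hle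
    refine le_trans hle' ?_
    refine le_of_eq ?_
    congr

end Pool.Agent.Lib.BE
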